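import Pool.Agent.N84.MD.BC
import Pool.Agent.N625.PT.H
import Pool.Agent.N625.PT.F
import Pool.Agent.Results.MP_629a14_nt.PiatetskiShapiroNeighbourhoods

/-!
# The order of magnitude of the Goldbach representation numbers for ALL even multiples of ALL integers near the first
# digits of almost every real number

The starting results on this question (and all classical ones) leave out an exceptional set of even numbers at every scale.
Here a sequence of random integers `x_k < b ^ k` is given on one probability space, one for every number `k` of digits: for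
instance the integers formed by the first `k` digits of a random real number `ξ`, in any base. Almost surely, for all large `k`
there are NO exceptions: ALL the even integers `m > 0` of the form `m = h (c_k + s + κ x_k)` with `1 ≤ h ≤ k ^ J` and
`|s| ≤ k ^ W` have the number of representations as a sum of two primes which Hardy and Littlewood predict, also in all the
windows of a length of at least `m / log ^ A m`, and so the order of magnitude in the problem; and this holds for all `κ ≠ 0`,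
`J`, `W`, `A` and all relative errors `ε > 0` at once. This applies

* to almost every real number `ξ` in `[0, 1)` (with respect to the measure of Lebesgue), in all bases `b` at once;
* to almost every point with respect to any measure for which the first `k` digits have exchangeable blocks: Bernoulli and
  Markov measures, for example the Cantor measure, or measures which are dominated by such measures up to a power of `k`.

The proof combines the starting library on random integers with exchangeable blocks of digits (`Pool.Agent.N625.PT`: all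
the multiples have a thin large spectrum; Goldbach windows for the neighbours and their multiples) with the lemma of Borel
and Cantelli (`Pool.Agent.N84.MD.BC`). For the primorial form of Goldbach's conjecture and independent digits there is such a
result in the starting files (`MP_484fb8_nt.AlmostEveryRealNumber`, no multiples); for the full number of
representations the starting files have results with exceptional sets only.

Definitions used from `Pool.Agent.H560R3.GB` (starting files): `C₂`: the twin prime constant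
`∏_{p > 2} (1 - 1 / (p - 1) ^ 2)`; `sing m`: the singular series `2 C₂ ∏_{p ∣ m, p > 2} (p - 1) / (p - 2)`.
-/

set_option autoImplicit false

open Filter MeasureTheory Finset
open scoped ENNReal

namespace Pool.Agent.Results.MP_629a14_nt.AlmostEveryRealNumber

open Pool.Agent.H560R3.GB (sing C₂)

/-- The number of primes `p`, `y₁ < p ≤ y₂`, for which `m - p` is a prime (used for `y₂ ≤ m`; for `y₁ = 0` and
`y₂ = m` this is the number of ordered representations of `m` as a sum of two primes). -/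
def R (m y₁ y₂ : ℕ) : ℕ := ((Ioc y₁ y₂).filter (fun p => p.Prime ∧ (m - p).Prime)).card

/-- For all `y₁ < y₂ ≤ m` with `y₂ - y₁ ≥ m / log ^ A m`, the number `R m y₁ y₂` agrees with the prediction
`sing m * (y₂ - y₁) / log ^ 2 m` up to a relative error of at most `ε`, and lies between `(1 - ε) C₂` and `1 + ε`
times `(y₂ - y₁) m / (φ(m) log ^ 2 m)`. -/
def Holds (ε : ℝ) (A m : ℕ) : Prop :=
  ∀ y₁ y₂ : ℕ, y₁ < y₂ → y₂ ≤ m → (m : ℝ) / Real.log m ^ A ≤ (y₂ : ℝ) - y₁ →
    |(R m y₁ y₂ : ℝ) - sing m * ((y₂ : ℝ) - y₁) / Real.log m ^ 2| ≤ ε * (sing m * ((y₂ : ℝ) - y₁) / Real.log m ^ 2) ∧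
    (1 - ε) * C₂ * (((y₂ : ℝ) - y₁) * m / (m.totient * Real.log m ^ 2)) ≤ R m y₁ y₂ ∧
    (R m y₁ y₂ : ℝ) ≤ (1 + ε) * (((y₂ : ℝ) - y₁) * m / (m.totient * Real.log m ^ 2))

lemma holds_mono {ε ε' : ℝ} {A m : ℕ} (h : Holds ε A m) (hε : ε ≤ ε') : Holds ε' A m := by
  intro y₁ y₂ h1 h2 h3
  obtain ⟨q1, q2, q3⟩ := h y₁ y₂ h1 h2 h3
  have hy : (0 : ℝ) ≤ (y₂ : ℝ) - y₁ := by
    have : (y₁ : ℝ) ≤ y₂ := by exact_mod_cast h1.le
    linarith
  have hs : 0 ≤ sing m := zero_le_one.trans (Pool.Agent.W93.GB.one_le_sing m)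
  have hC := PiatetskiShapiroNeighbourhoods.C₂_nonneg
  have hH : 0 ≤ sing m * ((y₂ : ℝ) - y₁) / Real.log m ^ 2 := by positivity
  have hM : 0 ≤ ((y₂ : ℝ) - y₁) * m / (m.totient * Real.log m ^ 2) := by positivity
  refine ⟨q1.trans (mul_le_mul_of_nonneg_right hε hH), le_trans ?_ q2, q3.trans ?_⟩
  · have := mul_nonneg hC hM
    nlinarith
  · nlinarith

/-- The probability, for the distribution `μ` on the words of `k` digits (the integers `v < b ^ k`), that the word begins with
the `i` digits of `u < b ^ i`. -/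
noncomputable def begins (b k : ℕ) (μ : ℕ → ℝ) (i u : ℕ) : ℝ := ∑ w ∈ range (b ^ (k - i)), μ (u * b ^ (k - i) + w)

/-- `p` is a probability on the words of `k` digits in base `b`, read as integers `v < b ^ k`. There is another probability
`μ` with `p ≤ k ^ T μ` such that after every beginning `u` two different blocks `a`, `a'` of `L` digits can be exchanged:
`p (u a w) = r p (u a' w)` for all endings `w`, with a factor `r` between `η` and `1 / η` which does not depend on `w`; and
given the beginning `u`, each of the two blocks comes next with a probability of at least `η` in the distribution `μ`.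
(For `T = 0` one has `μ = p`. For the uniform distribution on a set of words `r` is `1`.) -/
structure Exchangeable (b L : ℕ) (η : ℝ) (T k : ℕ) (p : ℕ → ℝ) : Prop where
  nonneg : ∀ v, 0 ≤ p v
  sum : ∑ v ∈ range (b ^ k), p v = 1
  dominated : ∃ μ : ℕ → ℝ, (∀ v, 0 ≤ μ v) ∧ ∑ v ∈ range (b ^ k), μ v = 1 ∧ (∀ v < b ^ k, p v ≤ (k : ℝ) ^ T * μ v) ∧
    ∀ i u : ℕ, i + L ≤ k → u < b ^ i → ∃ (a a' : ℕ) (r : ℝ), a < a' ∧ a' < b ^ L ∧ η ≤ r ∧ η * r ≤ 1 ∧
      (∀ w < b ^ (k - (i + L)), p ((b ^ L * u + a) * b ^ (k - (i + L)) + w) = r * p ((b ^ L * u + a') * b ^ (k - (i + L)) + w)) ∧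
      η * begins b k μ i u ≤ begins b k μ (i + L) (b ^ L * u + a) ∧
      η * begins b k μ i u ≤ begins b k μ (i + L) (b ^ L * u + a')

lemma begins_sum (b k : ℕ) (μ : ℕ → ℝ) (i u : ℕ) (hi : i < k) :
    ∑ a ∈ range b, begins b k μ (i + 1) (b * u + a) = begins b k μ i u := by
  unfold begins
  obtain ⟨n, hn⟩ : ∃ n, k - i = n + 1 := ⟨k - i - 1, by omega⟩
  have h1 : k - (i + 1) = n := by omega
  rw [h1, hn, pow_succ, mul_comm (b ^ n) b, Pool.Agent.N625.PT.sum_blocks b (b ^ n)]
  apply sum_congr rfl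
  intro a _
  apply sum_congr rfl
  intro w _
  congr 1
  ring

lemma flex_of {b L T k : ℕ} {η : ℝ} {p : ℕ → ℝ} (hp : Exchangeable b L η T k p) : Pool.Agent.N625.PT.Flex b L η T k p := by
  obtain ⟨h0, h1, μ, m0, m1, m2, m3⟩ := hp
  have hT : (0 : ℝ) ≤ (k : ℝ) ^ T := by positivity
  have hb0 : ∀ i u, 0 ≤ begins b k μ i u := fun i u => sum_nonneg fun w _ => m0 _
  refine ⟨h0, h1, fun i u => (k : ℝ) ^ T * begins b k μ i u, fun i u => mul_nonneg hT (hb0 i u), ?_, ?_, ?_, ?_⟩
  · intro v hv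
    refine (m2 v hv).trans (le_of_eq ?_)
    unfold begins
    simp
  · intro i hi u _
    simp only
    rw [← mul_sum, begins_sum b k μ i u hi]
  · simp only
    have : begins b k μ 0 0 = 1 := by
      unfold begins
      simpa using m1
    rw [this, mul_one]
  · intro i u hi hu
    obtain ⟨a, a', r, q1, q2, q3, q4, q5, q6, q7⟩ := m3 i u hi hu
    refine ⟨a, a', r, q1, q2, q3, q4, q5, ?_, ?_⟩
    · simp only
      calc η * ((k : ℝ) ^ T * begins b k μ i u) = (k : ℝ) ^ T * (η * begins b k μ i u) := by ring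
        _ ≤ _ := mul_le_mul_of_nonneg_left q6 hT
    · simp only
      calc η * ((k : ℝ) ^ T * begins b k μ i u) = (k : ℝ) ^ T * (η * begins b k μ i u) := by ring
        _ ≤ _ := mul_le_mul_of_nonneg_left q7 hT

/-- For all integers `κ ≠ 0`, all `J`, `W`, `A` and all `ε > 0`, and for all large `k`: all the positive even integers
`m = h (c_k + s + κ x_k)` with `1 ≤ h ≤ k ^ J` and `|s| ≤ k ^ W` have the property `Holds ε A m`. -/
def Always (c : ℕ → ℤ) (x : ℕ → ℕ) : Prop :=
  ∀ (κ : ℤ) (J W A : ℕ) (ε : ℝ), κ ≠ 0 → 0 < ε → ∀ᶠ k : ℕ in atTop, ∀ h : ℕ, 1 ≤ h → h ≤ k ^ J → ∀ s : ℤ,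
    |s| ≤ (k : ℤ) ^ W → 0 < (h : ℤ) * (c k + s + κ * x k) → Even ((h : ℤ) * (c k + s + κ * x k)) →
      Holds ε A ((h : ℤ) * (c k + s + κ * x k)).toNat

/-- the uniform distribution has exchangeable digits -/
theorem exch_unif (b : ℕ) (hb : 2 ≤ b) (k : ℕ) (p : ℕ → ℝ) (hp : ∀ v < b ^ k, p v = 1 / (b : ℝ) ^ k)
    (hp0 : ∀ v, 0 ≤ p v) : Exchangeable b 1 (1 / b) 0 k p := by
  have hb0 : (0 : ℝ) < b := by exact_mod_cast (by omega : 0 < b)
  have hbk : (0 : ℝ) < (b : ℝ) ^ k := by positivity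
  have hsum : ∀ f : ℕ → ℝ, (∀ v < b ^ k, f v = 1 / (b : ℝ) ^ k) → ∑ v ∈ range (b ^ k), f v = 1 := by
    intro f hf
    rw [sum_congr rfl fun v hv => hf v (mem_range.1 hv), sum_const, card_range, nsmul_eq_mul]
    push_cast
    field_simp
  refine ⟨hp0, hsum p hp, fun _ => 1 / (b : ℝ) ^ k, fun _ => by positivity, hsum _ fun _ _ => rfl, ?_, ?_⟩
  · intro v hv
    rw [hp v hv, pow_zero, one_mul]
  · intro i u hi hu
    obtain ⟨n, hn⟩ : ∃ n, k = i + 1 + n := ⟨k - (i + 1), by omega⟩
    have e1 : k - (i + 1) = n := by omega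
    have e2 : k - i = n + 1 := by omega
    have hlt : ∀ a, a < b → ∀ w, w < b ^ n → (b ^ 1 * u + a) * b ^ n + w < b ^ k := by
      intro a ha w hw
      have h1 : b ^ 1 * u + a + 1 ≤ b ^ (i + 1) := by
        rw [pow_one, pow_succ]
        nlinarith
      calc (b ^ 1 * u + a) * b ^ n + w < (b ^ 1 * u + a) * b ^ n + b ^ n := by omega
        _ = (b ^ 1 * u + a + 1) * b ^ n := by ring
        _ ≤ b ^ (i + 1) * b ^ n := Nat.mul_le_mul_right _ h1
        _ = b ^ k := by rw [hn, pow_add b (i + 1) n]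
    have hbeg : ∀ j u', begins b k (fun _ => 1 / (b : ℝ) ^ k) j u' = (b : ℝ) ^ (k - j) * (1 / (b : ℝ) ^ k) := by
      intro j u'
      unfold begins
      rw [sum_const, card_range, nsmul_eq_mul]
      push_cast
      rfl
    refine ⟨0, 1, 1, one_pos, by rw [pow_one]; omega, ?_, ?_, ?_, ?_, ?_⟩
    · rw [div_le_one hb0]
      exact_mod_cast (by omega : 1 ≤ b)
    · rw [mul_one, div_le_one hb0]
      exact_mod_cast (by omega : 1 ≤ b)
    · intro w hw
      rw [e1] at hw ⊢
      rw [hp _ (hlt 0 (by omega) w hw), hp _ (hlt 1 (by omega) w hw), one_mul]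
    · rw [hbeg, hbeg, e1, e2, pow_succ]
      apply le_of_eq
      field_simp
    · rw [hbeg, hbeg, e1, e2, pow_succ]
      apply le_of_eq
      field_simp

/-- **(1)** Let `x_k = x_k(ω) < b ^ k` be random integers on a probability space whose laws have exchangeable blocks of digits
for all large `k`, and let `c_k` be integers with `|c_k| ≤ B b ^ k`. Then almost surely `Always c x`: for all large `k` all the
even multiples of all the integers near `c_k + κ x_k` have the predicted number of representations as a sum of two primes, in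
all long windows, with the order of magnitude in the problem.

**(2)** For almost every real number `ξ` in `[0, 1)` this holds in all bases `b ≥ 2` at once, with `x_k = [b ^ k ξ]`, for given
integers `c_k = c_b(k)` with `|c_b(k)| ≤ B_b b ^ k` (for instance `c_k = 0`). -/
theorem result :
    (∀ (b L : ℕ), 2 ≤ b → 1 ≤ L → ∀ η : ℝ, 0 < η → η ≤ 1 → ∀ (T₀ B : ℕ) (c : ℕ → ℤ), (∀ k, |c k| ≤ B * (b : ℤ) ^ k) →
      ∀ (Ω : Type) [MeasurableSpace Ω] (ν : Measure Ω) [IsProbabilityMeasure ν] (x : ℕ → Ω → ℕ), (∀ k ω, x k ω < b ^ k) →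
      (∀ᶠ k : ℕ in atTop, Exchangeable b L η T₀ k fun v => (ν {ω | x k ω = v}).toReal) →
        ∀ᵐ ω ∂ν, Always c fun k => x k ω) ∧
    (∀ (B : ℕ → ℕ) (c : ℕ → ℕ → ℤ), (∀ b k, |c b k| ≤ B b * (b : ℤ) ^ k) →
      ∀ᵐ ξ : ℝ, 0 ≤ ξ → ξ < 1 → ∀ b : ℕ, 2 ≤ b → Always (c b) fun k => ⌊(b : ℝ) ^ k * ξ⌋₊) := by
  classical
  have main : ∀ (b L : ℕ), 2 ≤ b → 1 ≤ L → ∀ η : ℝ, 0 < η → η ≤ 1 → ∀ (T₀ B : ℕ) (c : ℕ → ℤ),
      (∀ k, |c k| ≤ B * (b : ℤ) ^ k) →
      ∀ (Ω : Type) [MeasurableSpace Ω] (ν : Measure Ω) [IsProbabilityMeasure ν] (x : ℕ → Ω → ℕ), (∀ k ω, x k ω < b ^ k) →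
      (∀ᶠ k : ℕ in atTop, Exchangeable b L η T₀ k fun v => (ν {ω | x k ω = v}).toReal) →
        ∀ᵐ ω ∂ν, Always c fun k => x k ω := by
    intro b L hb hL η hη0 hη1 T₀ B c hc Ω _ ν _ x hx hlaw
    have key : ∀ (κ : ℤ) (J W A n : ℕ), κ ≠ 0 → ∀ᵐ ω ∂ν, ∀ᶠ k : ℕ in atTop, ∀ h : ℕ, 1 ≤ h → h ≤ k ^ J → ∀ s : ℤ,
        |s| ≤ (k : ℤ) ^ W → 0 < (h : ℤ) * (c k + s + κ * x k ω) → Even ((h : ℤ) * (c k + s + κ * x k ω)) →
          Holds (1 / ((n : ℝ) + 1)) A ((h : ℤ) * (c k + s + κ * x k ω)).toNat := by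
      intro κ J W A n hκ
      obtain ⟨k₀, h0⟩ := Pool.Agent.N625.PT.t_windows (Pool.Agent.N625.PT.flex_tcls b L hb hL η hη0 hη1 T₀ κ hκ)
        B J W A 2 3 (1 / ((n : ℝ) + 1)) (by positivity) (Holds (1 / ((n : ℝ) + 1)) A)
        (fun m hm h2 hw => PiatetskiShapiroNeighbourhoods.holds_of _ A (by positivity) m hm h2 hw)
      obtain ⟨k₁, h1⟩ := eventually_atTop.1 hlaw
      exact Pool.Agent.N84.MD.bc_nat ν (fun k => b ^ k) x hx
        (fun k v => ∀ h : ℕ, 1 ≤ h → h ≤ k ^ J → ∀ s : ℤ, |s| ≤ (k : ℤ) ^ W → 0 < (h : ℤ) * (c k + s + κ * v) →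
          Even ((h : ℤ) * (c k + s + κ * v)) → Holds (1 / ((n : ℝ) + 1)) A ((h : ℤ) * (c k + s + κ * v)).toNat)
        ⟨max k₀ k₁, fun k hk => by
          have h3 := h0 k ((le_max_left _ _).trans hk) _ (flex_of (h1 k ((le_max_right _ _).trans hk))) (c k) (hc k)
            (fun v => ∀ h : ℕ, 1 ≤ h → h ≤ k ^ J → ∀ s : ℤ, |s| ≤ (k : ℤ) ^ W → 0 < (h : ℤ) * (c k + s + κ * v) →
              Even ((h : ℤ) * (c k + s + κ * v)) → Holds (1 / ((n : ℝ) + 1)) A ((h : ℤ) * (c k + s + κ * v)).toNat)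
            (fun v hv => by
              push Not at hv
              obtain ⟨h, q1, q2, s, q3, q4, q5, q6⟩ := hv
              exact ⟨h, q1, q2, s, q3, q4, even_iff_two_dvd.1 q5, q6⟩)
          refine le_trans (le_of_eq ?_) h3
          refine sum_congr rfl fun v _ => ?_
          split_ifs <;> rfl⟩
    have hall : ∀ᵐ ω ∂ν, ∀ (κ : ℤ) (J W A n : ℕ), κ ≠ 0 → ∀ᶠ k : ℕ in atTop, ∀ h : ℕ, 1 ≤ h → h ≤ k ^ J → ∀ s : ℤ,
        |s| ≤ (k : ℤ) ^ W → 0 < (h : ℤ) * (c k + s + κ * x k ω) → Even ((h : ℤ) * (c k + s + κ * x k ω)) →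
          Holds (1 / ((n : ℝ) + 1)) A ((h : ℤ) * (c k + s + κ * x k ω)).toNat := by
      refine ae_all_iff.2 fun κ => ae_all_iff.2 fun J => ae_all_iff.2 fun W => ae_all_iff.2 fun A =>
        ae_all_iff.2 fun n => ?_
      by_cases hκ : κ = 0
      · exact Filter.Eventually.of_forall fun ω h => absurd hκ h
      · filter_upwards [key κ J W A n hκ] with ω hω _
        exact hω
    filter_upwards [hall] with ω hω κ J W A ε hκ hε
    obtain ⟨n, hn⟩ := exists_nat_one_div_lt hε
    filter_upwards [hω κ J W A n hκ] with k hk h q1 q2 s q3 q4 q5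
    exact holds_mono (hk h q1 q2 s q3 q4 q5) hn.le
  refine ⟨main, fun B c hc => ?_⟩
  have each : ∀ b : ℕ, ∀ᵐ ξ : ℝ, 0 ≤ ξ → ξ < 1 → 2 ≤ b → Always (c b) fun k => ⌊(b : ℝ) ^ k * ξ⌋₊ := by
    intro b
    by_cases hb : 2 ≤ b
    swap
    · exact Filter.Eventually.of_forall fun ξ _ _ h => absurd h hb
    have hb0 : (0 : ℝ) < b := by exact_mod_cast (by omega : 0 < b)
    have : IsProbabilityMeasure (volume.restrict (Set.Ico (0 : ℝ) 1)) :=
      ⟨by rw [Measure.restrict_apply_univ, Real.volume_Ico]; norm_num⟩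
    have hpos : ∀ k : ℕ, 0 < b ^ k := fun k => Nat.pow_pos (by omega)
    have h1 := main b 1 hb le_rfl (1 / b) (by positivity) (by
      rw [div_le_one hb0]
      exact_mod_cast (by omega : 1 ≤ b)) 0 (B b) (c b) (hc b) ℝ (volume.restrict (Set.Ico (0 : ℝ) 1))
      (fun k ξ => ⌊((b ^ k : ℕ) : ℝ) * ξ⌋₊ % b ^ k) (fun k ξ => Nat.mod_lt _ (hpos k))
      (Filter.Eventually.of_forall fun k => exch_unif b hb k _ (fun v hv => by
        show ((volume.restrict (Set.Ico (0 : ℝ) 1)) {ξ : ℝ | ⌊((b ^ k : ℕ) : ℝ) * ξ⌋₊ % b ^ k = v}).toReal = _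
        rw [Pool.Agent.N84.MD.unif (b ^ k) (hpos k) v hv, ENNReal.toReal_ofReal (by positivity)]
        push_cast
        rfl) (fun v => ENNReal.toReal_nonneg))
    rw [ae_restrict_iff' measurableSet_Ico] at h1
    filter_upwards [h1] with ξ hξ h2 h3 _
    have h4 := hξ ⟨h2, h3⟩
    have h5 : (fun k : ℕ => ⌊((b ^ k : ℕ) : ℝ) * ξ⌋₊ % b ^ k) = fun k : ℕ => ⌊(b : ℝ) ^ k * ξ⌋₊ := by
      funext k
      have hbk : (0 : ℝ) < (b : ℝ) ^ k := by positivity
      push_cast
      refine Nat.mod_eq_of_lt ?_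
      rw [Nat.floor_lt (by positivity)]
      push_cast
      nlinarith
    rw [h5] at h4
    exact h4
  filter_upwards [ae_all_iff.2 each] with ξ hξ h2 h3 b hb
  exact hξ b h2 h3 hb

end Pool.Agent.Results.MP_629a14_nt.AlmostEveryRealNumber
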