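import Pool.Agent.N625.PT.H
import Pool.Agent.L7h6.GB.FlexWalk
import Pool.Agent.Results.MP_629a14_nt.PiatetskiShapiroNeighbourhoods

/-!
# The order of magnitude of the Goldbach representation numbers of all the even multiples of all the integers near the
# integers whose digits label walks in a graph

Let the digits in base `b` label the edges of a (finite or infinite) symmetric graph, such that the edges with different
labels which start at a vertex are different and at least two edges start at every vertex; for instance the Cayley graph of
any finitely generated group (the digits are the generators). Consider the integers `v` whose `k` digits are the labels of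
a walk from the vertex `x` to the vertex `y`, for instance of a closed walk, that is, a word in the generators which is trivial
in the group. If there are enough such walks, then for almost all these `v`, for ALL the integers `q` near `c + κ v` and ALL
the `h ≤ k ^ J`, the number `h q`, if it is even, has the number of representations as a sum of two primes which Hardy and
Littlewood predict, also in all long windows, and so the order of magnitude in the problem.

These sets of integers are in general sparse (they have `b ^ (k (1 - δ))` elements below `b ^ k`), and they cannot be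
described by a finite automaton or by independent digits: the set of the words which are trivial in the group is a
regular language only for finite groups.

Method. New (`Pool.Agent.L7h6.GB`): the uniform distribution on the walks from `x` to `y` has exchangeable blocks of
digits in the sense of the library `Pool.Agent.N625.PT` (starting files): at a vertex `z` two different closed walks of the
length two can be exchanged, and the potential `∑_m (2 ρ²)^(-m) w(n + 2 m, z)`, `w(n, z)` the number of the walks of the
length `n` from `z` to `y`, is harmonic, decreases by a bounded factor along these blocks, and is at most `k ^ (D + 1)` at the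
start, by the spectral bound `w(n, z) ≤ ρ ^ n`. The passage from exchangeable blocks to Goldbach representations in
windows, for all the multiples, is `Pool.Agent.N625.PT.t_windows` (starting files).

Definitions used from `Pool.Agent.H560R3.GB` (starting files): `C₂`: the twin prime constant
`∏_{p > 2} (1 - 1 / (p - 1) ^ 2)`; `sing m`: the singular series `2 C₂ ∏_{p ∣ m, p > 2} (p - 1) / (p - 2)`.
-/

set_option autoImplicit false

namespace Pool.Agent.Results.MP_629a14_nt.DigitWalks

open Finset
open Pool.Agent.H560R3.GB (sing C₂)

/-- The number of primes `p`, `y₁ < p ≤ y₂`, for which `m - p` is a prime (used for `y₂ ≤ m`; for `y₁ = 0` and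
`y₂ = m` this is the number of ordered representations of `m` as a sum of two primes). -/
def R (m y₁ y₂ : ℕ) : ℕ := ((Ioc y₁ y₂).filter (fun p => p.Prime ∧ (m - p).Prime)).card

/-- For all `y₁ < y₂ ≤ m` with `y₂ - y₁ ≥ m / log ^ A m`, the number `R m y₁ y₂` agrees with the prediction
`sing m * (y₂ - y₁) / log ^ 2 m` up to a relative error of at most `ε`, and lies between `(1 - ε) C₂` and `1 + ε`
times `(y₂ - y₁) m / (φ(m) log ^ 2 m)`. -/
def Holds (ε : ℝ) (A m : ℕ) : Prop :=
  ∀ y₁ y₂ : ℕ, y₁ < y₂ → y₂ ≤ m → (m : ℝ) / Real.log m ^ A ≤ (y₂ : ℝ) - y₁ →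
    |(R m y₁ y₂ : ℝ) - sing m * ((y₂ : ℝ) - y₁) / Real.log m ^ 2| ≤ ε * (sing m * ((y₂ : ℝ) - y₁) / Real.log m ^ 2) ∧
    (1 - ε) * C₂ * (((y₂ : ℝ) - y₁) * m / (m.totient * Real.log m ^ 2)) ≤ R m y₁ y₂ ∧
    (R m y₁ y₂ : ℝ) ≤ (1 + ε) * (((y₂ : ℝ) - y₁) * m / (m.totient * Real.log m ^ 2))

/-- The digits `a < b` act on the set `X` of the vertices: an edge with the label `a` leads from `x` to `y` if
`δ x a = some y` (at most one edge with the label `a` starts at `x`). The number of the edges from `x` to `y` equals the
number of the edges from `y` to `x`, and at least two edges start at every vertex. The graph may be infinite. -/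
structure Graph {X : Type} (b : ℕ) (δ : X → ℕ → Option X) : Prop where
  symm : ∀ x y : X, {a : ℕ | a < b ∧ δ x a = some y}.ncard = {a : ℕ | a < b ∧ δ y a = some x}.ncard
  two : ∀ x : X, ∃ a a' : ℕ, a < a' ∧ a' < b ∧ (δ x a).isSome ∧ (δ x a').isSome

open Classical in
/-- The integers `v < b ^ k` whose `k` digits in base `b`, from the most significant to the least significant one (the
digit number `i`, `0 ≤ i < k`, from the left is `v / b ^ (k - 1 - i) % b`), are the labels of a walk from `x` to `y`. -/
noncomputable def walks {X : Type} (b : ℕ) (δ : X → ℕ → Option X) (k : ℕ) (x y : X) : Finset ℕ :=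
  (range (b ^ k)).filter fun v =>
    ((List.range k).map fun i => v / b ^ (k - 1 - i) % b).foldl (fun s a => s.bind fun z => δ z a) (some x) = some y

/-- For all the integers `q ≥ 1` at a distance of at most `k ^ W` from `y` and all `h` with `1 ≤ h ≤ k ^ J` for which `h q` is
even: `Holds ε A (h q)`. -/
def AllMultiples (ε : ℝ) (A J W k : ℕ) (y : ℤ) : Prop :=
  ∀ q : ℕ, 1 ≤ q → |(q : ℤ) - y| ≤ (k : ℤ) ^ W → ∀ h : ℕ, 1 ≤ h → h ≤ k ^ J → Even (h * q) → Holds ε A (h * q)

open Classical in
/-- Let `δ` be a graph whose edges are labelled with the digits in base `b`, let `x` be a vertex, and let `ρ > 0` be such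
that there are at most `ρ ^ (2 n)` closed walks of the length `2 n` at `x`, for all `n`. Let `D`, `κ ≠ 0`, `B`, `A`, `J`, `W`,
`U` and `ε > 0` be fixed, let `k` be large, let `y` be a vertex such that the number of the walks of the length `k` from `x` to
`y` is at least `ρ ^ k / k ^ D`, and let `c` be an arbitrary integer with `|c| ≤ B b ^ k`. Then for all the integers `v` whose
`k` digits are the labels of a walk from `x` to `y`, with the exception of a proportion of at most `1 / k ^ U` of them, ALL
the integers `q ≥ 1` at a distance of at most `k ^ W` from `c + κ v` and ALL `h` with `1 ≤ h ≤ k ^ J` have the following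
property, if `m = h q` is even: for all `y₁ < y₂ ≤ m` with `y₂ - y₁ ≥ m / log ^ A m`, the number of the representations
`m = p + p'` with primes `p`, `p'` and `y₁ < p ≤ y₂` agrees with the prediction of Hardy and Littlewood up to a relative
error of at most `ε`, and lies between `(1 - ε) C₂` and `1 + ε` times `(y₂ - y₁) m / (φ(m) log ^ 2 m)` (for `y₁ = 0`,
`y₂ = m` this is the order of magnitude in the problem).

(For a group of polynomial growth, a free group, or any group with the property of rapid decay, there are at least
`ρ ^ k / k ^ D` closed walks of every even length `k` in the Cayley graph, where `ρ` is its spectral radius.) -/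
theorem result (b : ℕ) (X : Type) (δ : X → ℕ → Option X) (hG : Graph b δ) (x : X) (ρ : ℝ) (hρ : 0 < ρ)
    (hR : ∀ n : ℕ, ((walks b δ (2 * n) x x).card : ℝ) ≤ ρ ^ (2 * n)) (D : ℕ) (κ : ℤ) (hκ : κ ≠ 0) (B A J W U : ℕ)
    (ε : ℝ) (hε : 0 < ε) :
    ∃ k₀ : ℕ, ∀ k : ℕ, k₀ ≤ k → ∀ y : X, ρ ^ k / (k : ℝ) ^ D ≤ (walks b δ k x y).card → ∀ c : ℤ, |c| ≤ B * (b : ℤ) ^ k →
      (((walks b δ k x y).filter fun v => ¬ AllMultiples ε A J W k (c + κ * (v : ℕ))).card : ℝ) ≤
        (walks b δ k x y).card / (k : ℝ) ^ U := by
  have hG' : Pool.Agent.N625.GW.Graph b δ := ⟨hG.symm, hG.two⟩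
  have hb := Pool.Agent.N625.GW.two_le hG' x
  have hρ2 := Pool.Agent.N625.GW.rho_two hG' hR
  obtain ⟨k₀, h0⟩ := Pool.Agent.N625.PT.t_windows (Pool.Agent.N625.PT.flex_tcls b 2 hb (by norm_num) (1 / (2 * ρ ^ 2))
    (by positivity) (by rw [div_le_one (by positivity)]; linarith) (D + 1) κ hκ) B J W A U 3 ε hε (Holds ε A)
    (fun m hm h2 hw => PiatetskiShapiroNeighbourhoods.holds_of ε A hε m hm h2 hw)
  refine ⟨k₀ + 2, fun k hk y hy c hc => ?_⟩
  have hk1 : (0 : ℝ) < (k : ℝ) ^ D := by
    have : (0 : ℝ) < k := by exact_mod_cast (by omega : 0 < k)
    positivity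
  have hy' : ρ ^ k ≤ (k : ℝ) ^ D * (walks b δ k x y).card := by
    rw [div_le_iff₀ hk1, mul_comm] at hy
    exact hy
  have h1 := h0 k (by omega) _ (Pool.Agent.L7h6.GB.walk_flex hG' x ρ hρ hR D k (by omega) y hy') c hc
    (fun v => AllMultiples ε A J W k (c + κ * (v : ℕ))) (Pool.Agent.L7h6.GB.conv_mult c κ k J W (Holds ε A))
  have h2 := Pool.Agent.L7h6.GB.pr_count k x y (Pool.Agent.N625.GW.card_pos' hρ hy') _ _ h1
  rw [mul_one_div] at h2
  exact h2

end Pool.Agent.Results.MP_629a14_nt.DigitWalks
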