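import Pool.Agent.N625.PT.H
import Pool.Agent.L7h6.GB.FlexWalk
import Pool.Agent.Results.MP_629a14_nt.PiatetskiShapiroNeighbourhoods

/-!
# The order of magnitude of the Goldbach representation numbers of all the even multiples of all the integers near the
# integers given by a context-free language

Some digits in base `b` are opening brackets, some are closing brackets, some are neutral; an opening digit matches certain
closing digits. Consider the integers whose `k` digits form a correctly nested word (for one pair of brackets and no neutral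
digits these are the Dyck words; the number of the correctly nested words is about `β ^ k / k ^ (3 / 2)` with some `β < b`, so
the set is sparse). For almost all these integers `v`, for ALL the integers `q` near `c + κ v` and ALL the `h ≤ k ^ J`, the
number `h q`, if it is even, has the number of representations as a sum of two primes which Hardy and Littlewood predict,
also in all long windows, and so the order of magnitude in the problem.

Method. New (`Pool.Agent.L7h6.GB`): the uniform distribution on the correctly nested words has exchangeable blocks of digits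
in the sense of the library `Pool.Agent.N625.PT` (starting files): the blocks `o c o c` and `o o c c` lead from a stack of
open brackets to the same stack, and the potential is the harmonic function of the stack (the product of the numbers
of the closing digits which match the open brackets, divided by a power of the square root of the number of the matching
pairs) times a power of `β`; it is at most `k ^ 5` at the start, by the bound for the ballot numbers. The passage from
exchangeable blocks to Goldbach representations in windows, for all the multiples, is `Pool.Agent.N625.PT.t_windows`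
(starting files).

Definitions used from `Pool.Agent.H560R3.GB` (starting files): `C₂`: the twin prime constant
`∏_{p > 2} (1 - 1 / (p - 1) ^ 2)`; `sing m`: the singular series `2 C₂ ∏_{p ∣ m, p > 2} (p - 1) / (p - 2)`.
-/

set_option autoImplicit false

namespace Pool.Agent.Results.MP_629a14_nt.NestedWords

open Finset
open Pool.Agent.H560R3.GB (sing C₂)

/-- The number of primes `p`, `y₁ < p ≤ y₂`, for which `m - p` is a prime (used for `y₂ ≤ m`; for `y₁ = 0` and
`y₂ = m` this is the number of ordered representations of `m` as a sum of two primes). -/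
def R (m y₁ y₂ : ℕ) : ℕ := ((Ioc y₁ y₂).filter (fun p => p.Prime ∧ (m - p).Prime)).card

/-- For all `y₁ < y₂ ≤ m` with `y₂ - y₁ ≥ m / log ^ A m`, the number `R m y₁ y₂` agrees with the prediction
`sing m * (y₂ - y₁) / log ^ 2 m` up to a relative error of at most `ε`, and lies between `(1 - ε) C₂` and `1 + ε`
times `(y₂ - y₁) m / (φ(m) log ^ 2 m)`. -/
def Holds (ε : ℝ) (A m : ℕ) : Prop :=
  ∀ y₁ y₂ : ℕ, y₁ < y₂ → y₂ ≤ m → (m : ℝ) / Real.log m ^ A ≤ (y₂ : ℝ) - y₁ →
    |(R m y₁ y₂ : ℝ) - sing m * ((y₂ : ℝ) - y₁) / Real.log m ^ 2| ≤ ε * (sing m * ((y₂ : ℝ) - y₁) / Real.log m ^ 2) ∧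
    (1 - ε) * C₂ * (((y₂ : ℝ) - y₁) * m / (m.totient * Real.log m ^ 2)) ≤ R m y₁ y₂ ∧
    (R m y₁ y₂ : ℝ) ≤ (1 + ε) * (((y₂ : ℝ) - y₁) * m / (m.totient * Real.log m ^ 2))

/-- `P` is a set of pairs of an opening digit and a closing digit which match each other, `E` is a set of neutral
digits; the digits are smaller than `b`, no digit plays two of the three roles, and there is at least one pair.
(An opening digit can match several closing digits, and conversely.) -/
structure Alphabet (b : ℕ) (P : Finset (ℕ × ℕ)) (E : Finset ℕ) : Prop where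
  lt : ∀ p ∈ P, p.1 < b ∧ p.2 < b
  ne : ∀ p ∈ P, ∀ p' ∈ P, p.1 ≠ p'.2
  neutral : ∀ a ∈ E, a < b ∧ ∀ p ∈ P, a ≠ p.1 ∧ a ≠ p.2
  nonempty : P.Nonempty

/-- The correctly nested words: the empty word; a neutral digit followed by a correctly nested word; and `o u c w`,
where `u` and `w` are correctly nested words and the opening digit `o` matches the closing digit `c`. -/
inductive Balanced (P : Finset (ℕ × ℕ)) (E : Finset ℕ) : List ℕ → Prop
  | nil : Balanced P E []
  | neutral (a : ℕ) (w : List ℕ) : a ∈ E → Balanced P E w → Balanced P E (a :: w)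
  | pair (o c : ℕ) (u w : List ℕ) : (o, c) ∈ P → Balanced P E u → Balanced P E w → Balanced P E (o :: (u ++ c :: w))

open Classical in
/-- The integers `v < b ^ k` whose `k` digits in base `b`, from the most significant to the least significant one (the
digit number `i`, `0 ≤ i < k`, from the left is `v / b ^ (k - 1 - i) % b`), form a correctly nested word. -/
noncomputable def brackets (b : ℕ) (P : Finset (ℕ × ℕ)) (E : Finset ℕ) (k : ℕ) : Finset ℕ :=
  (range (b ^ k)).filter fun v => Balanced P E ((List.range k).map fun i => v / b ^ (k - 1 - i) % b)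

lemma bal_iff (P : Finset (ℕ × ℕ)) (E : Finset ℕ) (w : List ℕ) : Balanced P E w ↔ Pool.Agent.N625.DY.Balanced P E w := by
  constructor
  · intro h
    induction h with
    | nil => exact .nil
    | neutral a w h1 _ ih => exact .neutral a w h1 ih
    | pair o c u w h1 _ _ ih1 ih2 => exact .pair o c u w h1 ih1 ih2
  · intro h
    induction h with
    | nil => exact .nil
    | neutral a w h1 _ ih => exact .neutral a w h1 ih
    | pair o c u w h1 _ _ ih1 ih2 => exact .pair o c u w h1 ih1 ih2

lemma brackets_eq (b : ℕ) (P : Finset (ℕ × ℕ)) (E : Finset ℕ) (k : ℕ) :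
    brackets b P E k = Pool.Agent.N625.DY.brackets b P E k := by
  classical
  unfold brackets Pool.Agent.N625.DY.brackets Pool.Agent.N625.DY.word
  ext v
  rw [mem_filter, mem_filter, bal_iff]

/-- For all the integers `q ≥ 1` at a distance of at most `k ^ W` from `y` and all `h` with `1 ≤ h ≤ k ^ J` for which `h q` is
even: `Holds ε A (h q)`. -/
def AllMultiples (ε : ℝ) (A J W k : ℕ) (y : ℤ) : Prop :=
  ∀ q : ℕ, 1 ≤ q → |(q : ℤ) - y| ≤ (k : ℤ) ^ W → ∀ h : ℕ, 1 ≤ h → h ≤ k ^ J → Even (h * q) → Holds ε A (h * q)

open Classical in
/-- Let the matching pairs `P` of digits and the neutral digits `E` in base `b`, and `κ ≠ 0`, `B`, `A`, `J`, `W`, `U` and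
`ε > 0` be fixed, let `k` be large, and let `c` be an arbitrary integer with `|c| ≤ B b ^ k`. Then for all the integers `v`
whose `k` digits form a correctly nested word, with the exception of a proportion of at most `1 / k ^ U` of them, ALL the
integers `q ≥ 1` at a distance of at most `k ^ W` from `c + κ v` and ALL `h` with `1 ≤ h ≤ k ^ J` have the following property,
if `m = h q` is even: for all `y₁ < y₂ ≤ m` with `y₂ - y₁ ≥ m / log ^ A m`, the number of the representations `m = p + p'`
with primes `p`, `p'` and `y₁ < p ≤ y₂` agrees with the prediction of Hardy and Littlewood up to a relative error of at most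
`ε`, and lies between `(1 - ε) C₂` and `1 + ε` times `(y₂ - y₁) m / (φ(m) log ^ 2 m)` (for `y₁ = 0`, `y₂ = m` this is the
order of magnitude in the problem). -/
theorem result (b : ℕ) (P : Finset (ℕ × ℕ)) (E : Finset ℕ) (hA : Alphabet b P E) (κ : ℤ) (hκ : κ ≠ 0) (B A J W U : ℕ)
    (ε : ℝ) (hε : 0 < ε) :
    ∃ k₀ : ℕ, ∀ k : ℕ, k₀ ≤ k → ∀ c : ℤ, |c| ≤ B * (b : ℤ) ^ k →
      (((brackets b P E k).filter fun v => ¬ AllMultiples ε A J W k (c + κ * (v : ℕ))).card : ℝ) ≤
        (brackets b P E k).card / (k : ℝ) ^ U := by
  have hA' : Pool.Agent.N625.DY.Alphabet b P E := ⟨hA.lt, hA.ne, hA.neutral, hA.nonempty⟩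
  have hb := Pool.Agent.N625.DY.two_le hA'
  have hbe := Pool.Agent.N625.DY.beta_ge hA'
  obtain ⟨T, k₁, hflex⟩ := Pool.Agent.L7h6.GB.nested_flex hA'
  obtain ⟨k₀, h0⟩ := Pool.Agent.N625.PT.t_windows (Pool.Agent.N625.PT.flex_tcls b 4 hb (by norm_num)
    (1 / Pool.Agent.N625.DY.beta P E ^ 4) (by positivity)
    (by rw [div_le_one (by positivity)]; exact one_le_pow₀ (by linarith)) T κ hκ) B J W A U 3 ε hε (Holds ε A)
    (fun m hm h2 hw => PiatetskiShapiroNeighbourhoods.holds_of ε A hε m hm h2 hw)
  refine ⟨k₀ + k₁, fun k hk c hc => ?_⟩
  simp only [brackets_eq]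
  by_cases hke : Even k ∨ E.Nonempty
  · have h1 := h0 k (by omega) _ (hflex k (by omega) hke) c hc
      (fun v => AllMultiples ε A J W k (c + κ * (v : ℕ))) (Pool.Agent.L7h6.GB.conv_mult c κ k J W (Holds ε A))
    rw [Pool.Agent.L7h6.GB.brackets_eq hA']
    have hpos : 0 < (Pool.Agent.N625.GW.walks b (Pool.Agent.N625.DY.step P E) k [] []).card := by
      rw [← Pool.Agent.L7h6.GB.brackets_eq hA']
      exact Pool.Agent.N625.DY.card_pos_of hA' k hke
    have h2 := Pool.Agent.L7h6.GB.pr_count k _ _ hpos _ _ h1
    rw [mul_one_div] at h2
    exact h2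
  · rw [Pool.Agent.N625.DY.br_empty k hke]
    simp

end Pool.Agent.Results.MP_629a14_nt.NestedWords
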