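import Pool.Agent.L7h18.RM.LawJ
import Pool.Agent.L7h6.GB.FlexWalk
import Pool.Agent.Results.MP_629a14_nt.PiatetskiShapiroNeighbourhoods

/-!
# The order of magnitude of the Goldbach representation numbers of all the even multiples of all the integers near random
# integers with a random field of digits, up to two fifths of the digits being prescribed

The digits of a random integer form a Markov random field on an arbitrary graph of positions of bounded degree; only the
digits at the positions in a set `I` have to be flexible, the other ones may be prescribed (or depend on the others in any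
Markovian way). The set `I` contains more than a half of the positions of every initial segment (the least significant
digits), a positive proportion of the positions of every final segment and more than three fifths of all the positions.
Then, with probability at least `1 - 1 / k ^ U`, for ALL the integers `q` near `c + κ v` and ALL the `h ≤ k ^ J`, the number
`h q`, if it is even, has the number of representations as a sum of two primes which Hardy and Littlewood predict, also in
all long windows, and so the order of magnitude in the problem.

Method. New (`Pool.Agent.L7h18.RM`): all the multiples of such random integers have a thin large spectrum: if the exponential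
sum at the frequency `h κ t / b ^ (K + 1)` is not small, then there are at most `O(log K)` good flexible positions (averages
over separated neighbourhoods in the graph, after `Pool.Agent.N213.GF`, starting files), so the frequency `t` is near to the
multiples of few numbers (`Pool.Agent.Y885`, starting files). The passage from such a law to Goldbach representations in
windows is `Pool.Agent.Y885.tl_windows` (starting files). By helper18; the form of the statement and the conversion lemma
`Pool.Agent.L7h6.GB.conv_mult` are by helper6.

Definitions used from `Pool.Agent.H560R3.GB` (starting files): `C₂`: the twin prime constant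
`∏_{p > 2} (1 - 1 / (p - 1) ^ 2)`; `sing m`: the singular series `2 C₂ ∏_{p ∣ m, p > 2} (p - 1) / (p - 2)`.

Examples of random fields with all the positions flexible, proved in `Pool.Agent.N213.GF.E` and `Pool.Agent.N213.GF.F`
(starting files): the uniform distribution on the solutions of local constraints with flexible digits on a graph of positions
with degrees at most `Δ`, with `η = 1 / b ^ (Δ + 1)` (`unif_field`); in particular the integers whose nonzero digits form an
independent set of the graph (`indep_local`), and, for `b ≥ Δ + 2`, the integers whose digits are a proper colouring of the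
graph (`colour_local`).
-/

set_option autoImplicit false

namespace Pool.Agent.Results.MP_629a14_nt.RandomFieldMultiples

open Finset
open Pool.Agent.H560R3.GB (sing C₂)

/-- The number of primes `p`, `y₁ < p ≤ y₂`, for which `m - p` is a prime (used for `y₂ ≤ m`; for `y₁ = 0` and
`y₂ = m` this is the number of ordered representations of `m` as a sum of two primes). -/
def R (m y₁ y₂ : ℕ) : ℕ := ((Ioc y₁ y₂).filter (fun p => p.Prime ∧ (m - p).Prime)).card

/-- For all `y₁ < y₂ ≤ m` with `y₂ - y₁ ≥ m / log ^ A m`, the number `R m y₁ y₂` agrees with the prediction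
`sing m * (y₂ - y₁) / log ^ 2 m` up to a relative error of at most `ε`, and lies between `(1 - ε) C₂` and `1 + ε`
times `(y₂ - y₁) m / (φ(m) log ^ 2 m)`. -/
def Holds (ε : ℝ) (A m : ℕ) : Prop :=
  ∀ y₁ y₂ : ℕ, y₁ < y₂ → y₂ ≤ m → (m : ℝ) / Real.log m ^ A ≤ (y₂ : ℝ) - y₁ →
    |(R m y₁ y₂ : ℝ) - sing m * ((y₂ : ℝ) - y₁) / Real.log m ^ 2| ≤ ε * (sing m * ((y₂ : ℝ) - y₁) / Real.log m ^ 2) ∧
    (1 - ε) * C₂ * (((y₂ : ℝ) - y₁) * m / (m.totient * Real.log m ^ 2)) ≤ R m y₁ y₂ ∧
    (R m y₁ y₂ : ℝ) ≤ (1 + ε) * (((y₂ : ℝ) - y₁) * m / (m.totient * Real.log m ^ 2))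

/-- The digit of `v` at the position `i` in base `b` (the position `0` is the least significant one). -/
def dig (b v i : ℕ) : ℕ := v / b ^ i % b

/-- The integer which has the digits of `v` at the positions in `S` and the digits of `w` at the other positions below `k`. -/
def splice (b k : ℕ) (S : Finset ℕ) (v w : ℕ) : ℕ := ∑ i ∈ range k, (if i ∈ S then dig b v i else dig b w i) * b ^ i

/-- `v` and `w` have the same digits outside the set `S` of positions. -/
def Off (b : ℕ) (S : Finset ℕ) (v w : ℕ) : Prop := ∀ i, i ∉ S → dig b v i = dig b w i

open Classical in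
/-- The closed neighbourhood of the position `i` in the graph `A` on the positions `0, …, k - 1`. -/
noncomputable def nb (k : ℕ) (A : ℕ → ℕ → Prop) (i : ℕ) : Finset ℕ := (range k).filter fun j => j = i ∨ A i j

open Classical in
/-- The total weight of the integers below `b ^ k` which have the same digits as `v` outside `S`. -/
noncomputable def mass (b k : ℕ) (p : ℕ → ℝ) (S : Finset ℕ) (v : ℕ) : ℝ :=
  ∑ w ∈ (range (b ^ k)).filter (fun w => Off b S w v), p w

/-- The digits of a random integer `v < b ^ k` (with the probabilities `p v`) form a Markov random field on a graph `A` of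
positions with degrees at most `Δ` (the Markov property: for every set `S` of positions and all `v`, `w` which have the same
digits at the positions outside `S` adjacent to `S`, the product `p v * p w` does not change if `v` and `w` exchange their
digits in `S`), and the digits at the positions in `I` are flexible: for every `v` with `p v ≠ 0` and every position `i` in
`I`, there are `x` and `y` which have the same digits as `v` outside the closed neighbourhood of `i`, which differ from each
other exactly at the position `i`, and whose conditional probabilities, given the digits outside this neighbourhood, are at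
least `η`. (The digits at the other positions may be prescribed, for instance.) -/
structure Field (b k Δ : ℕ) (η : ℝ) (I : Finset ℕ) (A : ℕ → ℕ → Prop) (p : ℕ → ℝ) : Prop where
  symm : ∀ i j, A i j → A j i
  degree : ∀ i < k, (nb k A i).card ≤ Δ + 1
  nonneg : ∀ v, 0 ≤ p v
  sum : ∑ v ∈ range (b ^ k), p v = 1
  markov : ∀ S : Finset ℕ, ∀ v < b ^ k, ∀ w < b ^ k, (∀ i ∈ S, ∀ j < k, j ∉ S → A i j → dig b v j = dig b w j) →
    p v * p w = p (splice b k S v w) * p (splice b k S w v)
  flexible : ∀ v < b ^ k, p v ≠ 0 → ∀ i < k, i ∈ I → ∃ x < b ^ k, ∃ y < b ^ k, Off b (nb k A i) x v ∧ Off b {i} y x ∧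
    dig b y i ≠ dig b x i ∧ η * mass b k p (nb k A i) v ≤ p x ∧ η * mass b k p (nb k A i) v ≤ p y

/-- The set `I` of positions below `k` contains more than a half of the positions of each initial segment, a positive
proportion of the positions of each final segment (up to `D log k` positions) and more than three fifths of all the
positions. -/
def Rich (δ : ℝ) (D k : ℕ) (I : Finset ℕ) : Prop :=
  (∀ i ∈ I, i < k) ∧
  (∀ m ≤ k, (1 / 2 + δ) * m ≤ ((I.filter (fun i => i < m)).card : ℝ) + D * Real.log k) ∧
  (∀ m ≤ k, δ * m ≤ ((I.filter (fun i => k - m ≤ i)).card : ℝ) + D * Real.log k) ∧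
  (3 / 5 + δ) * k ≤ (I.card : ℝ)

/-- For all the integers `q ≥ 1` at a distance of at most `k ^ W` from `y` and all `h` with `1 ≤ h ≤ k ^ J` for which `h q` is
even: `Holds ε A (h q)`. -/
def AllMultiples (ε : ℝ) (A J W k : ℕ) (y : ℤ) : Prop :=
  ∀ q : ℕ, 1 ≤ q → |(q : ℤ) - y| ≤ (k : ℤ) ^ W → ∀ h : ℕ, 1 ≤ h → h ≤ k ^ J → Even (h * q) → Holds ε A (h * q)

lemma field_conv {b k Δ : ℕ} {η : ℝ} {I : Finset ℕ} {A : ℕ → ℕ → Prop} {p : ℕ → ℝ} (h : Field b k Δ η I A p) :
    Pool.Agent.L7h18.RM.FieldJ b k Δ η I A p :=
  ⟨h.symm, h.degree, h.nonneg, h.sum, h.markov, h.flexible⟩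

open Classical in
/-- Let `b ≥ 2`, `Δ`, `η > 0`, `δ > 0`, `D`, `κ ≠ 0`, `B`, `A`, `J`, `W`, `U` and `ε > 0` be fixed. Let `k` be large, let
`c` be an arbitrary integer with `|c| ≤ B b ^ k`, let `I` be a set of positions below `k` which contains at least
`(1 / 2 + δ) m - D log k` of the `m` least significant and `δ m - D log k` of the `m` most significant positions for each
`m ≤ k`, and `(3 / 5 + δ) k` positions, and let `v < b ^ k` be a random integer whose digits form a Markov random field on
an arbitrary graph of positions with degrees at most `Δ`, with flexible digits at the positions in `I` (`k` must be large in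
terms of `b`, `Δ`, `η`, `δ`, `D`, `κ`, `B`, `A`, `J`, `W`, `U`, `ε`, but not in terms of the graph, `I`, the distribution
and `c`). Then, with probability at least `1 - 1 / k ^ U`, ALL the integers `q ≥ 1` at a distance of at most `k ^ W` from
`c + κ v` and ALL `h` with `1 ≤ h ≤ k ^ J` have the following property, if `m = h q` is even: for all `y₁ < y₂ ≤ m` with
`y₂ - y₁ ≥ m / log ^ A m`, the number of the representations `m = p + p'` with primes `p`, `p'` and `y₁ < p ≤ y₂` agrees with
the prediction of Hardy and Littlewood up to a relative error of at most `ε`, and lies between `(1 - ε) C₂` and `1 + ε` times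
`(y₂ - y₁) m / (φ(m) log ^ 2 m)` (for `y₁ = 0`, `y₂ = m` this is the order of magnitude in the problem). -/
theorem result (b Δ : ℕ) (hb : 2 ≤ b) (η δ : ℝ) (hη : 0 < η) (hδ : 0 < δ) (D : ℕ) (κ : ℤ) (hκ : κ ≠ 0) (B A J W U : ℕ)
    (ε : ℝ) (hε : 0 < ε) :
    ∃ k₀ : ℕ, ∀ k : ℕ, k₀ ≤ k → ∀ c : ℤ, |c| ≤ B * (b : ℤ) ^ k →
      ∀ (G : ℕ → ℕ → Prop) (I : Finset ℕ) (p : ℕ → ℝ), Rich δ D k I → Field b k Δ η I G p →
      ∑ v ∈ range (b ^ k), (if AllMultiples ε A J W k (c + κ * (v : ℕ)) then 0 else p v) ≤ 1 / (k : ℝ) ^ U := by
  obtain ⟨k₀, h0⟩ := Pool.Agent.L7h18.RM.j_windows b Δ hb η hη δ hδ D κ hκ B J W A U 3 ε hε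
    (Holds ε A) (fun m hm h2 hw => PiatetskiShapiroNeighbourhoods.holds_of ε A hε m hm h2 hw)
  refine ⟨k₀, fun k hk c hc G I p hI hp => ?_⟩
  exact h0 k hk G I p hI (field_conv hp) c hc (fun v => AllMultiples ε A J W k (c + κ * (v : ℕ)))
    (Pool.Agent.L7h6.GB.conv_mult c κ k J W (Holds ε A))

end Pool.Agent.Results.MP_629a14_nt.RandomFieldMultiples
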